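import Pool.Agent.Results.MP_ec0437_lc.OntoPlane
import Pool.Agent.Y617.DS.Main

/-!
One restrained definably complete expansion of the real field in which every definable set of
positive dimension is mapped by definable maps onto all the spaces `ℝ^n`. The definitions `Def`,
`ExpandsOrderedField`, `DefinablyComplete`, `graphOn`, `DefMap`, `Restrained`, `DSigma`, `dim` and
`ImageDimLe` are those of the file `OntoPlane` of this problem.
-/

set_option autoImplicit false

open FirstOrder Set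

namespace Pool.Agent.Results.MP_ec0437_lc.AllDimensions

open Pool.Agent.Results.MP_ec0437_lc.OntoPlane

/-- The map `x ↦ (F x_i, F (x_i + 1), ..., F (x_i + n - 1))`. -/
def shifts (F : ℝ → ℝ) {m : ℕ} (i : Fin m) (n : ℕ) : (Fin m → ℝ) → (Fin n → ℝ) :=
  fun x j => F (x i + ((j : ℕ) : ℝ))

theorem shifts_onto {F : ℝ → ℝ} (hF : Pool.Agent.H195R3.Generic F) {m : ℕ} (i : Fin m) (n : ℕ)
    (C : Set (Fin m → ℝ)) (a b : ℝ) (hab : a < b) (hC : ∀ t, a < t → t < b → ∃ x ∈ C, x i = t) :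
    shifts F i n '' C = Set.univ := by
  obtain ⟨a', ha1, ha2⟩ := exists_rat_btwn hab
  obtain ⟨b', hb1, hb2⟩ := exists_rat_btwn ha2
  refine Set.eq_univ_of_forall fun y => ?_
  obtain ⟨t, h1, h2, h3⟩ := Pool.Agent.Y617.DS.gen_vals hF n
    (fun j => if h : j < n then y ⟨j, h⟩ else 0) a' b' (by exact_mod_cast hb1)
  obtain ⟨x, hxC, hxt⟩ := hC t (by linarith) (by linarith)
  refine ⟨x, hxC, ?_⟩
  funext j
  have h4 := h3 j.1 j.2.le
  simp only [j.2, dif_pos, Fin.eta] at h4
  change F (x i + ((j : ℕ) : ℝ)) = y j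
  rw [hxt]
  exact h4

/-- A set of positive dimension has a coordinate that takes all the values in an interval. -/
theorem exists_coord {m : ℕ} (C : Set (Fin m → ℝ)) (hC : (1 : WithBot ℕ) ≤ dim ℝ C) :
    ∃ (i : Fin m) (a b : ℝ), a < b ∧ ∀ t, a < t → t < b → ∃ x ∈ C, x i = t := by
  classical
  unfold dim at hC
  rw [Finset.le_sup_iff (WithBot.bot_lt_coe 1)] at hC
  obtain ⟨S, hS, hS1⟩ := hC
  rw [Finset.mem_filter] at hS
  have hS1' : 1 ≤ S.card := by exact_mod_cast hS1
  obtain ⟨i, hi⟩ := Finset.card_pos.1 hS1'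
  obtain ⟨z, hz⟩ := hS.2
  set P : Set (S → ℝ) := (fun x : Fin m → ℝ => fun i : S => x i) '' C with hP
  have hopen : IsOpen ((fun w : S → ℝ => w ⟨i, hi⟩) '' interior P) :=
    isOpenMap_eval (⟨i, hi⟩ : S) _ isOpen_interior
  obtain ⟨ε, hε, hball⟩ := Metric.isOpen_iff.1 hopen (z ⟨i, hi⟩) ⟨z, hz, rfl⟩
  refine ⟨i, z ⟨i, hi⟩ - ε, z ⟨i, hi⟩ + ε, by linarith, fun t h1 h2 => ?_⟩
  have ht : t ∈ Metric.ball (z ⟨i, hi⟩) ε := by
    rw [Metric.mem_ball, Real.dist_eq, abs_lt]
    constructor <;> linarith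
  obtain ⟨w, hw, hwt⟩ := hball ht
  obtain ⟨x, hx, hxw⟩ := interior_subset hw
  refine ⟨x, hx, ?_⟩
  rw [← hwt, ← hxw]

theorem def_shifts (F : ℝ → ℝ) {m : ℕ} (i : Fin m) (n : ℕ) (C : Set (Fin m → ℝ))
    (hC : @Def ℝ Pool.Agent.H195R3.Lf (Pool.Agent.H195R3.str F) m C) :
    @DefMap ℝ Pool.Agent.H195R3.Lf (Pool.Agent.H195R3.str F) m n C (shifts F i n) := by
  classical
  let _ := Pool.Agent.H195R3.str F
  refine ⟨hC, ?_⟩
  have h1 : (Set.univ : Set ℝ).Definable Pool.Agent.H195R3.Lf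
      ((fun g : Fin (m + n) → ℝ => g ∘ Fin.castAdd n) ⁻¹' C) :=
    Set.Definable.preimage_comp (Fin.castAdd n) hC
  have h2 := Set.definable_iInter_of_finite (fun j : Fin n =>
    Pool.Agent.Y617.DS.def_shift F (Fin.castAdd n i) (Fin.natAdd m j) ((j : ℕ) : ℝ))
  refine (congrArg (fun s => @Set.Definable ℝ (Set.univ : Set ℝ) Pool.Agent.H195R3.Lf
    (Pool.Agent.H195R3.str F) (Fin (m + n)) s) ?_).mp (h1.inter h2)
  ext v
  simp only [Set.mem_inter_iff, Set.mem_preimage, Set.mem_iInter, Set.mem_ofPred_eq, OntoPlane.graphOn]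
  constructor
  · rintro ⟨h3, h4⟩
    exact ⟨h3, funext fun j => h4 j⟩
  · rintro ⟨h3, h4⟩
    exact ⟨h3, fun j => congrFun h4 j⟩

/-- There is an expansion of the ordered field of real numbers (by one function on the line) that
is definably complete and restrained, and such that
(1) for every definable set `C ⊆ ℝ^m` of dimension at least one and every `n` some definable map
sends `C` onto `ℝ^n`;
(2) for every `n` there is one definable map of the line to `ℝ^n` that sends every nonempty open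
interval onto `ℝ^n`;
(3) all the spaces `ℝ^m` are `D_Σ` sets, of dimension `m`.
So the answer to the question is negative. -/
theorem result :
    (∃ (L : FirstOrder.Language.{0, 0}) (_ : L.Structure ℝ), ExpandsOrderedField ℝ L ∧
      DefinablyComplete ℝ L ∧ Restrained ℝ L ∧
      (∀ (m n : ℕ) (C : Set (Fin m → ℝ)), Def ℝ L C → (1 : WithBot ℕ) ≤ dim ℝ C →
        ∃ f : (Fin m → ℝ) → (Fin n → ℝ), DefMap ℝ L C f ∧ f '' C = Set.univ ∧
          dim ℝ (f '' C) = (n : WithBot ℕ)) ∧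
      (∀ n : ℕ, ∃ g : (Fin 1 → ℝ) → (Fin n → ℝ), DefMap ℝ L Set.univ g ∧
        ∀ a b : ℝ, a < b → g '' {x | a < x 0 ∧ x 0 < b} = Set.univ) ∧
      (∀ m : ℕ, DSigma ℝ L (Set.univ : Set (Fin m → ℝ)) ∧
        dim ℝ (Set.univ : Set (Fin m → ℝ)) = (m : WithBot ℕ))) ∧
    ¬ (∀ (K : Type) [Field K] [LinearOrder K] [IsStrictOrderedRing K] [TopologicalSpace K]
        [OrderTopology K] (L : FirstOrder.Language.{0, 0}) [L.Structure K],
        ExpandsOrderedField K L → DefinablyComplete K L → Restrained K L → ImageDimLe K L) := by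
  refine ⟨?_, Pool.Agent.Results.MP_ec0437_lc.OntoPlane.result.2⟩
  obtain ⟨f, hf⟩ := Pool.Agent.H195R3.exists_generic
  let _ := Pool.Agent.H195R3.str f
  refine ⟨Pool.Agent.H195R3.Lf, Pool.Agent.H195R3.str f,
    ⟨Pool.Agent.H195R3.def_add f 0 1 2, Pool.Agent.H195R3.def_mul f 0 1 2,
      Pool.Agent.H195R3.def_le f 0 1⟩, fun X _ h1 h2 => Real.exists_isLUB h1 h2, ?_, ?_, ?_, ?_⟩
  · intro n D g hg hD
    refine Pool.Agent.H195R3.finite_nowhereDense
      (Pool.Agent.H195R3.restrained hf n D (fun x => g x 0) hD ?_)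
    refine (congrArg (fun s => @Set.Definable ℝ (Set.univ : Set ℝ) Pool.Agent.H195R3.Lf
      (Pool.Agent.H195R3.str f) (Fin (n + 1)) s) ?_).mp hg.2
    ext v
    constructor
    · rintro ⟨h1, h2⟩
      exact ⟨h1, congrFun h2 0⟩
    · rintro ⟨h1, h2⟩
      refine ⟨h1, ?_⟩
      funext j
      have : j = 0 := Subsingleton.elim _ _
      subst this
      exact h2
  · intro m n C hC hdim
    obtain ⟨i, a, b, hab, hi⟩ := exists_coord C hdim
    have honto := shifts_onto hf i n C a b hab hi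
    refine ⟨shifts f i n, def_shifts f i n C hC, honto, ?_⟩
    rw [honto]
    exact dim_univ
  · intro n
    refine ⟨shifts f 0 n, def_shifts f 0 n Set.univ Set.definable_univ, fun a b hab => ?_⟩
    exact shifts_onto hf 0 n _ a b hab fun t h1 h2 => ⟨fun _ => t, ⟨h1, h2⟩, rfl⟩
  · intro m
    refine ⟨⟨Set.univ, Set.definable_univ, isClosed_univ, ?_⟩, dim_univ⟩
    ext y
    simp only [Set.mem_univ, true_iff, Set.image_univ, Set.mem_range]
    exact ⟨Fin.snoc y 0, by funext i; simp⟩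

end Pool.Agent.Results.MP_ec0437_lc.AllDimensions
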